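import Pool.Agent.W838.DC.Stm3
import Pool.Agent.W838.DC.Basic

/-!
# DC-EDGE
-/

set_option autoImplicit false

namespace Pool.Agent.W74.DC

open Pool.Agent.W838.DC Pool.Agent.W838.DC.Sys

variable {V X : Type*} [AddCommGroup V] (σ : Sys V X)

theorem reach_mu (h3 : S_CNT σ) {p q : X} (h : σ.Reach p q) : p = q ∨ σ.mu q < σ.mu p := by
  unfold Sys.Reach at h
  induction h with
  | refl => exact Or.inl rfl
  | tail _ hs ih =>
    obtain ⟨a, ha, rfl⟩ := hs
    have h1 := (h3 _ a ha.1).1
    rcases ih with rfl | ih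
    · exact Or.inr h1
    · exact Or.inr (h1.trans ih)

theorem reach_one (h3 : S_CNT σ) {p q : X} (h : σ.Reach p q) (hm : σ.mu p = σ.mu q + 1) :
    ∃ c ∈ σ.Φ, q = σ.r c p := by
  rcases Relation.ReflTransGen.cases_head h with h1 | ⟨m, ⟨a, ha, rfl⟩, h2⟩
  · rw [h1] at hm
    omega
  · have h4 := (h3 _ a ha.1).1
    rcases reach_mu σ h3 h2 with h5 | h5
    · exact ⟨a, ha.1.1, h5.symm⟩
    · omega

theorem cv_reach {v y z : X} (h : σ.Reach v y) (hc : Cv σ y z) : σ.Reach v z := by
  obtain ⟨a, ha, rfl, -⟩ := hc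
  exact h.trans (Reach.single ha)

theorem cv_r {y z : X} (hc : Cv σ y z) : ∃ a ∈ σ.Φ, z = σ.r a y := by
  obtain ⟨a, ha, h, -⟩ := hc
  exact ⟨a, ha.1.1, h⟩

theorem cv_mu {y z : X} (hc : Cv σ y z) : σ.mu z + 1 = σ.mu y := by
  obtain ⟨a, ha, h, h'⟩ := hc
  exact h'

theorem edge1 (h1 : S_OCT σ) (h2 : S_DM σ) (h3 : S_CNT σ) {v : X} {M : X → X} (hM : SM σ v M)
    {y : X} (hy : σ.Reach v y) {z : X} (hz : Cv σ y z) : ∃ c ∈ σ.Φ, M z = σ.r c (M y) := by
  have hvz := cv_reach σ hy hz
  have hmz := cv_mu σ hz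
  by_cases hyz : M y = z
  · obtain ⟨a, ha, hza⟩ := cv_r σ hz
    refine ⟨a, ha, ?_⟩
    rw [← hyz, hM.inv y hy, hyz, hza, σ.r_r ha]
  · have hr := hM.spec y z hy hz hyz
    have hne : M y ≠ M z := by
      intro h
      have h' := hM.inv y hy
      rw [h, hM.inv z hvz] at h'
      rw [h'] at hmz
      omega
    have hlt : σ.mu (M z) < σ.mu (M y) := (reach_mu σ h3 hr).resolve_left hne
    rcases hM.cov y hy with c1 | c1
    · have m1 := cv_mu σ c1
      rcases hM.cov z hvz with c2 | c2
      · have m2 := cv_mu σ c2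
        exact reach_one σ h3 hr (by omega)
      · have m2 := cv_mu σ c2
        omega
    · have m1 := cv_mu σ c1
      rcases hM.cov z hvz with c2 | c2
      · have m2 := cv_mu σ c2
        -- the case of difference three
        obtain ⟨z', hne', c3, c4⟩ := h2 y z (M z) hz c2
        have hvz' := cv_reach σ hy c3
        have hvt := hM.maps z hvz
        have m3 := cv_mu σ c3
        have m4 := cv_mu σ c4
        have hMz' : M z' ≠ M z := by
          intro h
          have h' := hM.inv z' hvz'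
          rw [h, hM.inv z hvz] at h'
          exact hne' h'.symm
        have r1 := hM.spec z' (M z) hvz' c4 hMz'
        rw [hM.inv z hvz] at r1
        have c5 : Cv σ (M z') z' := by
          rcases hM.cov z' hvz' with c5 | c5
          · exfalso
            have m5 := cv_mu σ c5
            rcases reach_mu σ h3 r1 with h | h
            · rw [h] at m5
              omega
            · omega
          · exact c5
        have m5 := cv_mu σ c5
        obtain ⟨e, he, hez⟩ := reach_one σ h3 r1 (by omega)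
        have hMy : M y ≠ z' := by
          intro h
          rw [h] at m1
          omega
        have r2 := hM.spec y z' hy c3 hMy
        obtain ⟨f, hf, hfy⟩ := reach_one σ h3 r2 (by omega)
        have hyy : y ≠ M z' := by
          intro h
          have h' := hM.inv z' hvz'
          rw [← h] at h'
          exact hMy h'
        exact h1 (M y) y (M z') z z' (M z) hyy hne'.symm (cv_r σ c1) ⟨f, hf, hfy⟩ (cv_r σ hz)
          (cv_r σ c3) ⟨e, he, hez⟩ (cv_r σ c5) (cv_r σ c2) (cv_r σ c4)
      · have m2 := cv_mu σ c2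
        exact reach_one σ h3 hr (by omega)

theorem edge (h1 : S_OCT σ) (h2 : S_DM σ) (h3 : S_CNT σ) : S_EDGE σ := by
  intro v M hM
  have key : ∀ D : ℕ, ∀ y, σ.Reach v y → ∀ a, σ.Psi y a → σ.mu y - σ.mu (σ.r a y) ≤ D →
      ∃ c ∈ σ.Φ, M (σ.r a y) = σ.r c (M y) := by
    intro D
    induction D with
    | zero =>
      intro y _ a ha h
      have := (h3 y a ha.1).1
      omega
    | succ D ih =>
      intro y hy a ha hD
      by_cases hind : Indec σ y a
      · have h4 := (h3 y a ha.1).2.1 hind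
        exact edge1 σ h1 h2 h3 hM hy ⟨a, ha, rfl, h4⟩
      · unfold Indec at hind
        push Not at hind
        obtain ⟨b, c, hb, hc, rfl⟩ := hind
        have hbΦ := hb.1
        have hcΦ := hc.1
        have hbc : σ.ip b c = -1 := by
          have h5 := σ.ip_self _ ha.1.1
          rw [σ.ip_add, σ.ip_add_right, σ.ip_add_right, σ.ip_self b hbΦ, σ.ip_self c hcΦ,
            σ.ip_symm c b] at h5
          omega
        have hcb : σ.ip c b = -1 := by rw [σ.ip_symm, hbc]
        have haΦ := ha.1.1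
        have pb := hb.2.1
        have pc := hc.2.1
        have qb := hb.2.2
        have qc := hc.2.2
        have pbc : 0 < σ.ht (b + c) := by rw [map_add]; omega
        -- labels
        have lb_b : σ.lab (σ.r b y) b = - σ.lab y b := σ.lab_r_self hbΦ y
        have lb_c : σ.lab (σ.r b y) c = σ.lab y b + σ.lab y c := σ.lab_r_neg hbΦ y hbc
        have lb_bc : σ.lab (σ.r b y) (b + c) = σ.lab y c := by
          rw [map_add, lb_b, lb_c]; abel
        have lc_c : σ.lab (σ.r c y) c = - σ.lab y c := σ.lab_r_self hcΦ y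
        have lc_b : σ.lab (σ.r c y) b = σ.lab y c + σ.lab y b := σ.lab_r_neg hcΦ y hcb
        have lc_bc : σ.lab (σ.r c y) (b + c) = σ.lab y b := by
          rw [map_add, lc_b, lc_c]; abel
        have l1_b : σ.lab (σ.r c (σ.r b y)) b = σ.lab y c := by
          rw [σ.lab_r_neg hcΦ _ hcb, lb_b, lb_c]; abel
        have l2_c : σ.lab (σ.r b (σ.r c y)) c = σ.lab y b := by
          rw [σ.lab_r_neg hbΦ _ hbc, lc_b, lc_c]; abel
        have l2_b : σ.lab (σ.r b (σ.r c y)) b = -(σ.lab y c + σ.lab y b) := by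
          rw [σ.lab_r_self hbΦ, lc_b]
        -- edges
        have Rb_c : σ.R (σ.r b y) c := ⟨hcΦ, pc, by rw [lb_c, map_add]; omega⟩
        have Rb_bc : σ.R (σ.r b y) (b + c) := ⟨haΦ, pbc, by rw [lb_bc]; omega⟩
        have Rc_b : σ.R (σ.r c y) b := ⟨hbΦ, pb, by rw [lc_b, map_add]; omega⟩
        have Rc_bc : σ.R (σ.r c y) (b + c) := ⟨haΦ, pbc, by rw [lc_bc]; omega⟩
        have R1_b : σ.R (σ.r c (σ.r b y)) b := ⟨hbΦ, pb, by rw [l1_b]; omega⟩
        have R2_c : σ.R (σ.r b (σ.r c y)) c := ⟨hcΦ, pc, by rw [l2_c]; omega⟩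
        have e1 : σ.r b (σ.r c (σ.r b y)) = σ.r (b + c) y := by
          rw [σ.r_conj_neg hbΦ hcΦ hbc, σ.r_r hbΦ]
        have e2 : σ.r c (σ.r b (σ.r c y)) = σ.r (b + c) y := by
          rw [σ.r_conj_neg hcΦ hbΦ hcb, σ.r_r hcΦ, add_comm]
        have e3 : σ.r (b + c) (σ.r b y) = σ.r b (σ.r c y) := (σ.r_conj_neg hbΦ hcΦ hbc y).symm
        have e4 : σ.r (b + c) (σ.r c y) = σ.r c (σ.r b y) := by
          rw [add_comm]
          exact (σ.r_conj_neg hcΦ hbΦ hcb y).symm
        have P1 : σ.P (σ.r c (σ.r b y)) := σ.P_of_R R1_b (by rw [e1]; exact ha.2)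
        have P2 : σ.P (σ.r b (σ.r c y)) := σ.P_of_R R2_c (by rw [e2]; exact ha.2)
        have Pb : σ.P (σ.r b y) := σ.P_of_R Rb_c P1
        have Pc : σ.P (σ.r c y) := σ.P_of_R Rc_b P2
        have Yb : σ.Psi y b := ⟨hb, Pb⟩
        have Yc : σ.Psi y c := ⟨hc, Pc⟩
        have Yb_c : σ.Psi (σ.r b y) c := ⟨Rb_c, P1⟩
        have Yb_bc : σ.Psi (σ.r b y) (b + c) := ⟨Rb_bc, by rw [e3]; exact P2⟩
        have Yc_b : σ.Psi (σ.r c y) b := ⟨Rc_b, P2⟩
        have Yc_bc : σ.Psi (σ.r c y) (b + c) := ⟨Rc_bc, by rw [e4]; exact P1⟩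
        have Y1_b : σ.Psi (σ.r c (σ.r b y)) b := ⟨R1_b, by rw [e1]; exact ha.2⟩
        have Y2_c : σ.Psi (σ.r b (σ.r c y)) c := ⟨R2_c, by rw [e2]; exact ha.2⟩
        -- measures
        have m1 := (h3 _ _ hb).1
        have m2 := (h3 _ _ hc).1
        have m3 := (h3 _ _ Rb_c).1
        have m4 := (h3 _ _ Rc_b).1
        have m5 := (h3 _ _ R1_b).1
        have m6 := (h3 _ _ R2_c).1
        have m7 := (h3 _ _ Rb_bc).1
        have m8 := (h3 _ _ Rc_bc).1
        rw [e1] at m5
        rw [e2] at m6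
        rw [e3] at m7
        rw [e4] at m8
        -- reachability
        have vb : σ.Reach v (σ.r b y) := hy.trans (Reach.single Yb)
        have vc : σ.Reach v (σ.r c y) := hy.trans (Reach.single Yc)
        have v1 : σ.Reach v (σ.r c (σ.r b y)) := vb.trans (Reach.single Yb_c)
        have v2 : σ.Reach v (σ.r b (σ.r c y)) := vc.trans (Reach.single Yc_b)
        have hinj : ∀ p q, σ.Reach v p → σ.Reach v q → M p = M q → p = q := by
          intro p q hp hq h
          rw [← hM.inv p hp, h, hM.inv q hq]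
        have n1 : M (σ.r b y) ≠ M (σ.r c y) := by
          intro h
          have h' := hinj _ _ vb vc h
          rw [h', lc_b] at lb_b
          have := congrArg σ.ht lb_b
          rw [map_add, map_neg] at this
          omega
        have n2 : M (σ.r c (σ.r b y)) ≠ M (σ.r b (σ.r c y)) := by
          intro h
          have h' := hinj _ _ v1 v2 h
          rw [h', l2_b] at l1_b
          have := congrArg σ.ht l1_b
          rw [map_neg, map_add] at this
          omega
        have E1 := ih y hy b Yb (by omega)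
        have E2 := ih y hy c Yc (by omega)
        have E3 := ih _ vb c Yb_c (by omega)
        have E4 := ih _ vb (b + c) Yb_bc (by rw [e3]; omega)
        have E5 := ih _ vc (b + c) Yc_bc (by rw [e4]; omega)
        have E6 := ih _ vc b Yc_b (by omega)
        have E7 := ih _ v1 b Y1_b (by rw [e1]; omega)
        have E8 := ih _ v2 c Y2_c (by rw [e2]; omega)
        rw [e3] at E4
        rw [e4] at E5
        rw [e1] at E7
        rw [e2] at E8
        exact h1 (M y) (M (σ.r b y)) (M (σ.r c y)) (M (σ.r c (σ.r b y))) (M (σ.r b (σ.r c y)))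
          (M (σ.r (b + c) y)) n1 n2 E1 E2 E3 E4 E5 E6 E7 E8
  intro y hy a ha
  exact key _ y hy a ha le_rfl

end Pool.Agent.W74.DC
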